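import Mathlib
import Pool.Agent.Y767.MC.Sum
import Pool.Agent.Results.MP_3b1797_co.RegularCounterexample

/-!
# Regular ordered sets containing an N in which every minimal cutset is a singleton
-/

namespace Pool.Agent.Results.MP_3b1797_co.EveryCardinality

open Cardinal Pool.Agent.Results.MP_3b1797_co.RegularCounterexample Pool.Agent.Y767.MC

/-- For every cardinal `κ ≥ 𝔠` there is a regular ordered set with exactly `κ` elements which
contains an N and in which every minimal cutset is an antichain; in fact every minimal cutset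
consists of a single element. -/
theorem result (κ : Cardinal.{0}) (hκ : 𝔠 ≤ κ) : ∃ (P : Type) (_ : PartialOrder P),
    #P = κ ∧ IsRegular P ∧
    (∀ K : Set P, IsMinimalCutset K → IsAntichain (· ≤ ·) K) ∧
    (∀ K : Set P, IsMinimalCutset K → ∃ x, K = {x}) ∧
    ContainsN P := by
  let ι : Type := WithTop κ.ord.ToType
  have hinf : ℵ₀ ≤ κ := aleph0_le_continuum.trans hκ
  have hι : #ι = κ := by
    have h1 : #ι = #(Option κ.ord.ToType) := rfl
    rw [h1, mk_option, mk_toType, card_ord]
    exact add_eq_left hinf (one_lt_aleph0.le.trans hinf)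
  have hs : ∀ K : Set (Lex (Q ⊕ ι)), IsMinimalCutset K → ∃ x, K = {x} :=
    singleton_sum fun K hK => by
      rcases minimal_cases hK with h | h
      · exact ⟨_, h⟩
      · exact ⟨_, h⟩
  refine ⟨Lex (Q ⊕ ι), inferInstance, ?_, regular_sum regularQ, fun K hK => ?_, hs,
    containsN_sum containsN⟩
  · have h1 : #(Lex (Q ⊕ ι)) = #(Q ⊕ ι) := rfl
    rw [h1, mk_sum, lift_id, lift_id, hι]
    exact add_eq_right hinf (mk_Q_le.trans hκ)
  · obtain ⟨x, rfl⟩ := hs K hK
    exact IsAntichain.singleton

end Pool.Agent.Results.MP_3b1797_co.EveryCardinality
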